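import Mathlib

/-!
The part of a number at the primes of `m`. (helper87, for MP_540de1_nt)
-/

set_option autoImplicit false

namespace Pool.Agent.Helper87.MPart

/-- The part of `t` at the primes of `m`. -/
def mpart (m t : ℕ) : ℕ := ∏ p ∈ m.primeFactors, p ^ t.factorization p

/-- The part of `t` prime to `m`. -/
def cpart (m t : ℕ) : ℕ := t / mpart m t

theorem mpart_pos (m t : ℕ) : 0 < mpart m t :=
  Finset.prod_pos fun _ hp => pow_pos (Nat.prime_of_mem_primeFactors hp).pos _

theorem mpart_factorization (m t p : ℕ) :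
    (mpart m t).factorization p = if p ∈ m.primeFactors then t.factorization p else 0 := by
  unfold mpart
  rw [Nat.factorization_prod fun q hq => (pow_pos (Nat.prime_of_mem_primeFactors hq).pos _).ne']
  rw [Finset.sum_apply']
  have h1 : ∀ q ∈ m.primeFactors, (q ^ t.factorization q).factorization p =
      if q = p then t.factorization p else 0 := by
    intro q hq
    rw [(Nat.prime_of_mem_primeFactors hq).factorization_pow, Finsupp.single_apply]
    by_cases h : q = p
    · rw [if_pos h, if_pos h, h]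
    · rw [if_neg h, if_neg h]
  rw [Finset.sum_congr rfl h1, Finset.sum_ite_eq']

theorem mpart_dvd (m t : ℕ) (ht : t ≠ 0) : mpart m t ∣ t := by
  rw [← Nat.factorization_le_iff_dvd (mpart_pos m t).ne' ht]
  intro p
  rw [mpart_factorization]
  split_ifs
  · exact le_rfl
  · exact Nat.zero_le _

theorem mpart_mul_cpart (m t : ℕ) (ht : t ≠ 0) : mpart m t * cpart m t = t :=
  Nat.mul_div_cancel' (mpart_dvd m t ht)

theorem cpart_ne_zero (m t : ℕ) (ht : t ≠ 0) : cpart m t ≠ 0 := by
  intro h
  have := mpart_mul_cpart m t ht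
  rw [h, mul_zero] at this
  exact ht this.symm

theorem cpart_factorization (m t p : ℕ) (ht : t ≠ 0) :
    (cpart m t).factorization p = if p ∈ m.primeFactors then 0 else t.factorization p := by
  have h1 : (mpart m t * cpart m t).factorization p = t.factorization p := by
    rw [mpart_mul_cpart m t ht]
  rw [Nat.factorization_mul (mpart_pos m t).ne' (cpart_ne_zero m t ht)] at h1
  rw [Finsupp.add_apply, mpart_factorization] at h1
  split_ifs at h1 ⊢ <;> omega

theorem cpart_coprime (m t : ℕ) (hm : m ≠ 0) (ht : t ≠ 0) : (cpart m t).Coprime m := by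
  rw [Nat.coprime_iff_gcd_eq_one]
  by_contra hne
  obtain ⟨p, hp, hpd⟩ := Nat.exists_prime_and_dvd hne
  have h1 : p ∣ cpart m t := hpd.trans (Nat.gcd_dvd_left _ _)
  have h2 : p ∣ m := hpd.trans (Nat.gcd_dvd_right _ _)
  have h3 := cpart_factorization m t p ht
  rw [if_pos (Nat.mem_primeFactors.2 ⟨hp, h2, hm⟩)] at h3
  have h4 := hp.factorization_pos_of_dvd (cpart_ne_zero m t ht) h1
  omega

theorem mpart_coprime (m a f : ℕ) (hf : f.Coprime m) : f.Coprime (mpart m a) := by
  unfold mpart
  refine Nat.Coprime.prod_right fun p hp => ?_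
  exact Nat.Coprime.pow_right _ (Nat.Coprime.coprime_dvd_right (Nat.dvd_of_mem_primeFactors hp) hf)

/-- The divisors `q` of `f * mpart m t`. -/
theorem dvd_mul_mpart (m q f t : ℕ) (hm : m ≠ 0) (hq : q ≠ 0) (ht : t ≠ 0) (hf : f.Coprime m) :
    q ∣ f * mpart m t ↔ cpart m q ∣ f ∧ mpart m q ∣ t := by
  have hqq := mpart_mul_cpart m q hq
  have hc := cpart_coprime m q hm hq
  have h1 : (mpart m q).Coprime f := (mpart_coprime m q f hf).symm
  have h2 : (cpart m q).Coprime (mpart m t) := mpart_coprime m t _ hc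
  have h3 : (mpart m q).Coprime (cpart m q) := (mpart_coprime m q _ hc).symm
  have h4 : mpart m q ∣ mpart m t ↔ mpart m q ∣ t := by
    constructor
    · exact fun h => h.trans (mpart_dvd m t ht)
    · intro h
      rw [← Nat.factorization_le_iff_dvd (mpart_pos m q).ne' (mpart_pos m t).ne']
      have h5 := (Nat.factorization_le_iff_dvd (mpart_pos m q).ne' ht).2 h
      intro p
      have h6 := h5 p
      rw [mpart_factorization] at h6 ⊢
      rw [mpart_factorization]
      split_ifs at h6 ⊢
      · exact h6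
      · exact le_rfl
  constructor
  · intro h
    have h5 : cpart m q ∣ f * mpart m t := (Dvd.intro_left _ hqq).trans h
    have h6 : mpart m q ∣ f * mpart m t := (Dvd.intro _ hqq).trans h
    exact ⟨h2.dvd_of_dvd_mul_right h5, h4.1 (h1.dvd_of_dvd_mul_left h6)⟩
  · rintro ⟨h5, h6⟩
    rw [← hqq]
    refine Nat.Coprime.mul_dvd_of_dvd_of_dvd h3 ?_ ?_
    · exact (h4.2 h6).mul_left _
    · exact h5.mul_right _

theorem mpart_eq_one (m t : ℕ) (hm : m ≠ 0) (ht : t ≠ 0) : mpart m t = 1 ↔ t.Coprime m := by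
  constructor
  · intro h
    have h1 := mpart_mul_cpart m t ht
    rw [h, one_mul] at h1
    rw [← h1]
    exact cpart_coprime m t hm ht
  · intro h
    have h1 : mpart m t ∣ t := mpart_dvd m t ht
    have h2 : t.Coprime (mpart m t) := mpart_coprime m t t h
    exact Nat.Coprime.eq_one_of_dvd h2.symm h1

/-- A prime `p ∣ m` divides `f * mpart m t` exactly when it divides `t`. -/
theorem prime_dvd_mul_mpart (m p f t : ℕ) (hm : m ≠ 0) (hp : p.Prime) (hpm : p ∣ m) (ht : t ≠ 0)
    (hf : f.Coprime m) : p ∣ f * mpart m t ↔ p ∣ t := by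
  have h1 : ¬ p ∣ f := fun h => hp.one_lt.ne' (Nat.Coprime.eq_one_of_dvd
    (Nat.Coprime.coprime_dvd_left h (Nat.Coprime.coprime_dvd_right hpm hf)) dvd_rfl)
  rw [hp.dvd_mul, or_iff_right h1]
  constructor
  · exact fun h => h.trans (mpart_dvd m t ht)
  · intro h
    have h2 := mpart_factorization m t p
    rw [if_pos (Nat.mem_primeFactors.2 ⟨hp, hpm, hm⟩)] at h2
    have h3 := hp.factorization_pos_of_dvd ht h
    rw [← h2] at h3
    exact Nat.dvd_of_factorization_pos h3.ne'

/-- Multiples of `q` in `[1, T]`. -/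
theorem card_dvd (q T : ℕ) :
    ((Finset.Icc 1 T).filter (fun t => q ∣ t)).card = T / q := by
  have h1 : (Finset.Icc 1 T).filter (fun t => q ∣ t) = (Finset.Ioc 0 T).filter (fun t => q ∣ t) := by
    congr 1
  rw [h1, Nat.Ioc_filter_dvd_card_eq_div]

/-- Numbers prime to `m ∣ T` in `[1, T]`. -/
theorem card_coprime (m T : ℕ) (hm : m ∣ T) (hm0 : m ≠ 0) :
    ((Finset.Icc 1 T).filter (fun t => t.Coprime m)).card = T / m * m.totient := by
  obtain ⟨k, rfl⟩ := hm
  have hm1 : 0 < m := Nat.pos_of_ne_zero hm0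
  rw [Nat.mul_div_cancel_left _ hm1]
  induction k with
  | zero => simp
  | succ k ih =>
    have h1 : (Finset.Icc 1 (m * (k + 1))).filter (fun t => t.Coprime m) =
        ((Finset.Icc 1 (m * k)).filter (fun t => t.Coprime m)) ∪
          ((Finset.Ico (m * k + 1) (m * k + 1 + m)).filter (fun t => m.Coprime t)) := by
      ext t
      simp only [Finset.mem_filter, Finset.mem_union, Finset.mem_Icc, Finset.mem_Ico,
        Nat.coprime_comm (m := t), mul_add, mul_one]
      constructor
      · rintro ⟨⟨h1, h2⟩, h3⟩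
        by_cases h4 : t ≤ m * k
        · exact Or.inl ⟨⟨h1, h4⟩, h3⟩
        · exact Or.inr ⟨⟨by omega, by omega⟩, h3⟩
      · rintro (⟨⟨h1, h2⟩, h3⟩ | ⟨⟨h1, h2⟩, h3⟩)
        · exact ⟨⟨h1, by omega⟩, h3⟩
        · exact ⟨⟨by omega, by omega⟩, h3⟩
    rw [h1, Finset.card_union_of_disjoint, ih, Nat.filter_coprime_Ico_eq_totient]
    · ring
    · rw [Finset.disjoint_left]
      intro t ht1 ht2
      rw [Finset.mem_filter, Finset.mem_Icc] at ht1
      rw [Finset.mem_filter, Finset.mem_Ico] at ht2
      omega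

end Pool.Agent.Helper87.MPart
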